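import Mathlib

/-!
# The integral closure of `F[u]` (package NRC-DedF)
-/

set_option autoImplicit false

namespace Pool.Agent.NRC

open scoped IntermediateField

universe u

/-- PROOF. `F[X]` acts on `L` through `aeval u` (injective, `u` is transcendental); `B` is the
integral closure of `F[X]` in `L` (`integralClosure (Polynomial F) L`). Its fraction field is `L`
and it is a Dedekind domain and a finite `F[X]`-module: `integralClosure.isDedekindDomain`,
`IsIntegralClosure.isFractionRing_of_finite_extension`, `IsIntegralClosure.finite` with the
fraction field `RatFunc F` or `FractionRing F[X]` of `F[X]`, mapped into `L` (`IsFractionRing.lift`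
of the injective map `F[X] → L`; the range is `F⟮u⟯`, so `L` is finite over it; separable, the
characteristic is `0`). So `B` is of finite type over `F`; `t = algebraMap F[X] B X`. -/
theorem exists_dedekind {F L : Type u} [Field F] [CharZero F] [Field L] [Algebra F L] (u : L)
    (hu : Transcendental F u) [FiniteDimensional F⟮u⟯ L] :
    ∃ (B : Type u) (_ : CommRing B) (_ : Algebra F B) (_ : Algebra B L), IsScalarTower F B L ∧
      IsDedekindDomain B ∧ IsFractionRing B L ∧ Algebra.FiniteType F B ∧
      ∃ t : B, algebraMap B L t = u := by
  let g : F⟮u⟯ := IntermediateField.AdjoinSimple.gen F u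
  have hg : algebraMap F⟮u⟯ L g = u := IntermediateField.AdjoinSimple.algebraMap_gen F u
  let _ : Algebra (Polynomial F) F⟮u⟯ := (Polynomial.aeval g).toRingHom.toAlgebra
  let _ : Algebra (Polynomial F) L := (Polynomial.aeval u).toRingHom.toAlgebra
  have htow : IsScalarTower (Polynomial F) F⟮u⟯ L := by
    refine IsScalarTower.of_algebraMap_eq fun p => ?_
    change Polynomial.aeval u p = algebraMap F⟮u⟯ L (Polynomial.aeval g p)
    rw [← Polynomial.aeval_algebraMap_apply, hg]
  have hinj : Function.Injective (algebraMap (Polynomial F) L) :=
    transcendental_iff_injective.1 hu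
  have hfaith : FaithfulSMul (Polynomial F) F⟮u⟯ := by
    rw [faithfulSMul_iff_algebraMap_injective]
    intro p q hpq
    apply hinj
    rw [IsScalarTower.algebraMap_apply (Polynomial F) F⟮u⟯ L, hpq,
      ← IsScalarTower.algebraMap_apply]
  have hfrac : IsFractionRing (Polynomial F) F⟮u⟯ := by
    refine IsFractionRing.of_field _ _ fun z => ?_
    obtain ⟨r, s, hrs⟩ := (IntermediateField.mem_adjoin_simple_iff F (z : L)).1 z.2
    refine ⟨r, s, Subtype.ext ?_⟩
    rw [hrs]
    change _ = algebraMap F⟮u⟯ L (Polynomial.aeval g r / Polynomial.aeval g s)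
    rw [map_div₀, ← Polynomial.aeval_algebraMap_apply, ← Polynomial.aeval_algebraMap_apply, hg]
  have hch : CharZero F⟮u⟯ := charZero_of_injective_algebraMap (algebraMap F F⟮u⟯).injective
  let B := integralClosure (Polynomial F) L
  have hded : IsDedekindDomain B := integralClosure.isDedekindDomain (Polynomial F) F⟮u⟯ L
  have hfr : IsFractionRing B L := integralClosure.isFractionRing_of_finite_extension F⟮u⟯ L
  have hfin : Module.Finite (Polynomial F) B := IsIntegralClosure.finite (Polynomial F) F⟮u⟯ L B
  let _ : Algebra F B := ((algebraMap (Polynomial F) B).comp Polynomial.C).toAlgebra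
  have h1 : IsScalarTower F (Polynomial F) B := IsScalarTower.of_algebraMap_eq fun c => rfl
  have h2 : IsScalarTower F B L := by
    refine IsScalarTower.of_algebraMap_eq fun c => ?_
    change algebraMap F L c = Polynomial.aeval u (Polynomial.C c)
    rw [Polynomial.aeval_C]
  have h3 : Algebra.FiniteType F B := Algebra.FiniteType.trans (S := Polynomial F) inferInstance
    inferInstance
  refine ⟨B, inferInstance, inferInstance, inferInstance, h2, hded, hfr, h3,
    algebraMap (Polynomial F) B Polynomial.X, ?_⟩
  change Polynomial.aeval u Polynomial.X = u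
  rw [Polynomial.aeval_X]

end Pool.Agent.NRC
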