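import Pool.Agent.NRC.Pol

/-!
# Points of finitely generated algebras over real closed fields (package NRC-Hom)
-/

set_option autoImplicit false

namespace Pool.Agent.NRC

open Pool.Agent.QCT

universe u

/-- PROOF. `B` is a quotient of `MvPolynomial (Fin m) F` (`Algebra.FiniteType.iff_quotient_...`) by
an ideal generated by finitely many `g j` (Hilbert's basis theorem); `b i` the images of the
variables, `τ` a polynomial with image `t`. Let `P = ∑ j, g j ^ 2 + (1 - Z * ∏ c ∈ C, (τ - c)) ^ 2`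
in `m + 1` variables (the last one is `Z`). Over `R` it has the zero `y i = ψ (b i)`, `Z = 1 / ∏
(ψ t - φ c)`. By `exists_eval_eq_zero` there is a zero in `F`; a sum of squares vanishes only if
all terms do, so `g j (y) = 0` and `τ (y) ≠ c` for `c ∈ C`; `χ` is the homomorphism of `B` with
`b i ↦ y i`. `φ` is `StrictMono` by hypothesis. -/
theorem exists_hom {F R B : Type u} [Field F] [LinearOrder F] [IsStrictOrderedRing F] [RCF F]
    [Field R] [LinearOrder R] [IsStrictOrderedRing R] [RCF R] (φ : F →+* R) (hφ : StrictMono φ)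
    [CommRing B] [Algebra F B] [Algebra.FiniteType F B] (ψ : B →+* R)
    (hψ : ∀ c, ψ (algebraMap F B c) = φ c) (t : B) (ht : ∀ c : F, ψ t ≠ φ c) (C : Finset F) :
    ∃ χ : B →ₐ[F] F, χ t ∉ C := by
  classical
  obtain ⟨n, f, hf⟩ := Algebra.FiniteType.iff_quotient_mvPolynomial''.mp
    (inferInstance : Algebra.FiniteType F B)
  obtain ⟨G, hG⟩ : (RingHom.ker f).FG := IsNoetherian.noetherian _
  obtain ⟨τ, hτ⟩ := hf t
  -- evaluation at the images of the variables is `ψ ∘ f`
  have hev : ∀ g : MvPolynomial (Fin n) F,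
      MvPolynomial.eval₂ φ (fun i => ψ (f (MvPolynomial.X i))) g = ψ (f g) := by
    intro g
    induction g using MvPolynomial.induction_on with
    | C a =>
      rw [MvPolynomial.eval₂_C, ← hψ, MvPolynomial.algHom_C]
    | add p q hp hq => rw [MvPolynomial.eval₂_add, hp, hq, map_add, map_add]
    | mul_X p i hp =>
      rw [MvPolynomial.eval₂_mul, MvPolynomial.eval₂_X, hp, map_mul, map_mul]
  let P : MvPolynomial (Fin (n + 1)) F :=
    ∑ g ∈ G, (MvPolynomial.rename Fin.castSucc g) ^ 2 +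
      (1 - MvPolynomial.X (Fin.last n) *
        ∏ c ∈ C, (MvPolynomial.rename Fin.castSucc τ - MvPolynomial.C c)) ^ 2
  have hP : P = ∑ g ∈ G, (MvPolynomial.rename Fin.castSucc g) ^ 2 +
      (1 - MvPolynomial.X (Fin.last n) *
        ∏ c ∈ C, (MvPolynomial.rename Fin.castSucc τ - MvPolynomial.C c)) ^ 2 := rfl
  have hR : ∃ y : Fin (n + 1) → R, MvPolynomial.eval₂ φ y P = 0 := by
    refine ⟨Fin.snoc (fun i => ψ (f (MvPolynomial.X i))) (∏ c ∈ C, (ψ t - φ c))⁻¹, ?_⟩
    have hcomp : (Fin.snoc (fun i => ψ (f (MvPolynomial.X i))) (∏ c ∈ C, (ψ t - φ c))⁻¹ :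
        Fin (n + 1) → R) ∘ Fin.castSucc = fun i => ψ (f (MvPolynomial.X i)) := by
      funext i
      simp only [Function.comp_apply, Fin.snoc_castSucc]
    have hne : (∏ c ∈ C, (ψ t - φ c)) ≠ 0 :=
      Finset.prod_ne_zero_iff.mpr fun c _ => sub_ne_zero.mpr (ht c)
    rw [← MvPolynomial.coe_eval₂Hom, hP]
    rw [map_add, map_sum, map_pow, map_sub, map_one, map_mul, map_prod]
    simp only [map_pow, map_sub, MvPolynomial.coe_eval₂Hom, MvPolynomial.eval₂_rename, hcomp,
      MvPolynomial.eval₂_C, MvPolynomial.eval₂_X, Fin.snoc_last, hev, hτ]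
    rw [inv_mul_cancel₀ hne, sub_self, Finset.sum_eq_zero]
    · ring
    · intro g hg
      have hker : g ∈ RingHom.ker f := by
        rw [← hG]
        exact Ideal.subset_span hg
      rw [RingHom.mem_ker] at hker
      rw [hker, map_zero]
      ring
  obtain ⟨z, hz⟩ := exists_eval_eq_zero φ hφ P hR
  rw [hP, map_add, map_sum, map_pow, map_sub, map_one, map_mul, map_prod] at hz
  simp only [map_pow, map_sub, MvPolynomial.eval_C, MvPolynomial.eval_X,
    MvPolynomial.eval_rename] at hz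
  have h1 : 0 ≤ ∑ g ∈ G, (MvPolynomial.eval (z ∘ Fin.castSucc) g) ^ 2 :=
    Finset.sum_nonneg fun g _ => sq_nonneg _
  have h2 : (1 - z (Fin.last n) *
      ∏ c ∈ C, (MvPolynomial.eval (z ∘ Fin.castSucc) τ - c)) ^ 2 = 0 :=
    le_antisymm (by linarith) (sq_nonneg _)
  have h3 : ∑ g ∈ G, (MvPolynomial.eval (z ∘ Fin.castSucc) g) ^ 2 = 0 := by linarith
  have h4 : ∀ g ∈ G, MvPolynomial.eval (z ∘ Fin.castSucc) g = 0 := by
    intro g hg
    have := (Finset.sum_eq_zero_iff_of_nonneg (fun g _ => sq_nonneg _)).mp h3 g hg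
    exact pow_eq_zero_iff (two_ne_zero) |>.mp this
  have h5 : ∀ a : MvPolynomial (Fin n) F, f a = 0 →
      MvPolynomial.aeval (z ∘ Fin.castSucc) a = 0 := by
    intro a ha
    have hmem : a ∈ Ideal.span (G : Set (MvPolynomial (Fin n) F)) := by
      rw [hG]
      exact (RingHom.mem_ker).mpr ha
    have hle : Ideal.span (G : Set (MvPolynomial (Fin n) F)) ≤
        RingHom.ker (MvPolynomial.aeval (z ∘ Fin.castSucc) : MvPolynomial (Fin n) F →ₐ[F] F) := by
      rw [Ideal.span_le]
      intro g hg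
      exact (RingHom.mem_ker).mpr (h4 g hg)
    exact (RingHom.mem_ker).mp (hle hmem)
  let χ : B →ₐ[F] F :=
    (Ideal.Quotient.liftₐ (RingHom.ker f) (MvPolynomial.aeval (z ∘ Fin.castSucc)) h5).comp
      (Ideal.quotientKerAlgEquivOfSurjective hf).symm.toAlgHom
  have hχ : ∀ a, χ (f a) = MvPolynomial.eval (z ∘ Fin.castSucc) a := by
    intro a
    have : (Ideal.quotientKerAlgEquivOfSurjective hf).symm (f a) =
        Ideal.Quotient.mk (RingHom.ker f) a := by
      rw [AlgEquiv.symm_apply_eq]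
      rfl
    change (Ideal.Quotient.liftₐ (RingHom.ker f) (MvPolynomial.aeval (z ∘ Fin.castSucc)) h5)
      ((Ideal.quotientKerAlgEquivOfSurjective hf).symm (f a)) = _
    rw [this]
    rfl
  refine ⟨χ, fun hmem => ?_⟩
  rw [← hτ, hχ] at hmem
  rw [Finset.prod_eq_zero hmem (sub_self _), mul_zero, sub_zero] at h2
  norm_num at h2

end Pool.Agent.NRC
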