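import Mathlib

/-!
# Maximal formally real fields: polynomials of odd degree (package NRC-Odd)
-/

set_option autoImplicit false

namespace Pool.Agent.NRC

open Polynomial

universe u

/-- what is used of a sum of squares of polynomials of degree less than `n` -/
private def oddPP {M : Type u} [Field M] (n : ℕ) (G : M[X]) : Prop :=
  (∀ c, IsSumSq (G.eval c)) ∧
    (G = 0 ∨ ∃ d < n, G.natDegree = 2 * d ∧ G ≠ 0 ∧ IsSumSq G.leadingCoeff)

private theorem odd_add_ne_zero {M : Type u} [Field M] [IsSemireal M] {x s : M} (hx : x ≠ 0)
    (hs : IsSumSq s) : x * x + s ≠ 0 := by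
  intro h
  have h1 : IsSumSq (s * (x⁻¹ * x⁻¹)) := hs.mul (IsSumSq.mul_self _)
  refine IsSemireal.one_add_ne_zero h1 ?_
  have h2 : s = -(x * x) := by
    rw [eq_neg_iff_add_eq_zero, add_comm, h]
  rw [h2]
  field_simp
  ring

private theorem odd_step {M : Type u} [Field M] [IsSemireal M] {n : ℕ} {G : M[X]}
    (hG : oddPP n G) (a : M[X]) (ha : a.natDegree < n) : oddPP n (a * a + G) := by
  refine ⟨fun c => ?_, ?_⟩
  · rw [eval_add, eval_mul]
    exact (IsSumSq.mul_self _).add (hG.1 c)
  · by_cases ha0 : a = 0
    · rw [ha0, mul_zero, zero_add]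
      exact hG.2
    · right
      have hl : a.leadingCoeff ≠ 0 := leadingCoeff_ne_zero.2 ha0
      have haa : a * a ≠ 0 := mul_ne_zero ha0 ha0
      have hd : (a * a).natDegree = 2 * a.natDegree := by
        rw [natDegree_mul ha0 ha0, two_mul]
      have hlc : (a * a).leadingCoeff = a.leadingCoeff * a.leadingCoeff := leadingCoeff_mul a a
      rcases hG.2 with h0 | ⟨d, hdn, hd2, hG0, hGl⟩
      · rw [h0, add_zero]
        exact ⟨_, ha, hd, haa, by rw [hlc]; exact IsSumSq.mul_self _⟩
      · rcases lt_trichotomy a.natDegree d with hlt | heq | hgt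
        · have h1 : (a * a).degree < G.degree := by
            rw [degree_eq_natDegree haa, degree_eq_natDegree hG0, hd, hd2]
            exact_mod_cast (by omega : 2 * a.natDegree < 2 * d)
          refine ⟨d, hdn, ?_, ?_, ?_⟩
          · rw [natDegree_add_eq_right_of_degree_lt h1, hd2]
          · intro h2
            have h3 := leadingCoeff_add_of_degree_lt h1
            rw [h2, leadingCoeff_zero] at h3
            exact hG0 (leadingCoeff_eq_zero.1 h3.symm)
          · rw [leadingCoeff_add_of_degree_lt h1]
            exact hGl
        · have h1 : (a * a).degree = G.degree := by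
            rw [degree_eq_natDegree haa, degree_eq_natDegree hG0, hd, hd2, heq]
          have h2 : (a * a).leadingCoeff + G.leadingCoeff ≠ 0 := by
            rw [hlc]
            exact odd_add_ne_zero hl hGl
          have h3 : (a * a + G).leadingCoeff = (a * a).leadingCoeff + G.leadingCoeff :=
            leadingCoeff_add_of_degree_eq h1 h2
          have h4 : a * a + G ≠ 0 := by
            intro h5
            rw [h5, leadingCoeff_zero] at h3
            exact h2 h3.symm
          refine ⟨d, hdn, ?_, h4, ?_⟩
          · have h5 := degree_add_eq_of_leadingCoeff_add_ne_zero h2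
            rw [h1, max_self, degree_eq_natDegree h4, degree_eq_natDegree hG0, hd2] at h5
            exact_mod_cast h5
          · rw [h3, hlc]
            exact (IsSumSq.mul_self _).add hGl
        · have h1 : G.degree < (a * a).degree := by
            rw [degree_eq_natDegree haa, degree_eq_natDegree hG0, hd, hd2]
            exact_mod_cast (by omega : 2 * d < 2 * a.natDegree)
          refine ⟨a.natDegree, ha, ?_, ?_, ?_⟩
          · rw [natDegree_add_eq_left_of_degree_lt h1, hd]
          · intro h2
            have h3 := leadingCoeff_add_of_degree_lt' h1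
            rw [h2, leadingCoeff_zero] at h3
            exact haa (leadingCoeff_eq_zero.1 h3.symm)
          · rw [leadingCoeff_add_of_degree_lt' h1, hlc]
            exact IsSumSq.mul_self _

private theorem odd_lift {M : Type u} [Field M] [IsSemireal M] {f : M[X]} (hf : f ≠ 0)
    (hf0 : 0 < f.natDegree) {s : AdjoinRoot f} (hs : IsSumSq s) :
    ∃ G : M[X], AdjoinRoot.mk f G = s ∧ oddPP f.natDegree G := by
  induction hs with
  | zero => exact ⟨0, map_zero _, fun c => by rw [eval_zero]; exact IsSumSq.zero, Or.inl rfl⟩
  | sq_add a hs ih =>
    obtain ⟨G, hG, hPP⟩ := ih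
    obtain ⟨b, rfl⟩ := AdjoinRoot.mk_surjective a
    have h1 : AdjoinRoot.mk f (b % f) = AdjoinRoot.mk f b := by
      rw [AdjoinRoot.mk_eq_mk, ← EuclideanDomain.div_add_mod b f]
      refine ⟨-(b / f), ?_⟩
      rw [EuclideanDomain.div_add_mod b f]
      have h2 := EuclideanDomain.div_add_mod b f
      linear_combination h2
    have h3 : (b % f).natDegree < f.natDegree := by
      by_cases h4 : b % f = 0
      · rw [h4, natDegree_zero]
        exact hf0
      · exact natDegree_lt_natDegree h4 (EuclideanDomain.mod_lt b hf)
    refine ⟨(b % f) * (b % f) + G, ?_, odd_step hPP _ h3⟩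
    rw [map_add, map_mul, h1, hG]

/-- PROOF. Strong induction on the degree `n`. A factor of `f` which is irreducible has odd degree
for some choice (the degrees of the irreducible factors add up to `n`); if it is smaller than `n`
use induction; so let `f` be irreducible of odd degree `n`. If `n = 1` there is a root. If `1 < n`,
`N = AdjoinRoot f` has degree `n ≠ 1`, so it is not semireal: `-1` is a sum of squares in `N`:
there are finitely many polynomials `g i` of degree less than `n` (`modByMonic`) with `f ∣ 1 + ∑ g
i ^ 2`, say `1 + ∑ g i ^ 2 = f * k`. Let `d` be the largest degree of a `g i`. The coefficient at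
`2 d` of the left hand side is a sum of squares of elements of `M`, not all `0` (for `d = 0`: `1 + ∑
(g i) ^ 2`), hence not `0` because `M` is semireal (a sum of squares which vanishes has all terms
`0`); so the degree of `f * k` is `2 d ≤ 2 n - 2`, and `k` has odd degree `2 d - n ≤ n - 2`. By
induction `k` has a root `c`: `1 + ∑ (g i c) ^ 2 = 0`, against `IsSemireal M`. -/
theorem exists_isRoot_of_odd {M : Type u} [Field M] [IsSemireal M]
    (h : ∀ (N : Type u) [Field N] [Algebra M N] [FiniteDimensional M N], IsSemireal N →
      Module.finrank M N = 1) (f : M[X]) (hf : Odd f.natDegree) : ∃ x, f.IsRoot x := by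
  obtain ⟨n, hn⟩ : ∃ n, f.natDegree = n := ⟨_, rfl⟩
  induction n using Nat.strong_induction_on generalizing f with
  | _ n ih =>
    have hpos : 0 < f.natDegree := hf.pos
    have hf0 : f ≠ 0 := by
      rintro rfl
      rw [natDegree_zero] at hpos
      exact lt_irrefl 0 hpos
    have hnu : ¬ IsUnit f := fun hu => by
      rw [natDegree_eq_zero_of_isUnit hu] at hpos
      exact lt_irrefl 0 hpos
    by_cases hirr : Irreducible f
    · by_cases h1 : f.natDegree = 1
      · have h2 : f.degree = 1 := by
          rw [degree_eq_natDegree hf0, h1]
          rfl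
        exact exists_root_of_degree_eq_one h2
      · have : Fact (Irreducible f) := ⟨hirr⟩
        have hfin : FiniteDimensional M (AdjoinRoot f) := (AdjoinRoot.powerBasis hf0).finite
        have hrank : Module.finrank M (AdjoinRoot f) = f.natDegree := by
          rw [(AdjoinRoot.powerBasis hf0).finrank, AdjoinRoot.powerBasis_dim]
        have hns : ¬ IsSemireal (AdjoinRoot f) := fun hs => by
          have h2 := h (AdjoinRoot f) hs
          rw [hrank] at h2
          exact h1 h2
        rw [isSemireal_iff] at hns
        push Not at hns
        obtain ⟨s, hs, hs1⟩ := hns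
        obtain ⟨G, hG, hPP⟩ := odd_lift hf0 hpos hs
        have hPP1 := odd_step hPP 1 (by rw [natDegree_one]; exact hpos)
        have hdvd : f ∣ 1 * 1 + G := by
          rw [← AdjoinRoot.mk_eq_zero, map_add, mul_one, map_one, hG, hs1]
        have hev : ∀ c, (1 * 1 + G : M[X]).eval c ≠ 0 := by
          intro c
          rw [mul_one, eval_add, eval_one]
          exact IsSemireal.one_add_ne_zero (hPP.1 c)
        obtain ⟨k, hk⟩ := hdvd
        rcases hPP1.2 with h0 | ⟨d, hdn, hd2, hG0, -⟩
        · exact absurd (by rw [h0, eval_zero]) (hev 0)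
        · have hk0 : k ≠ 0 := by
            rintro rfl
            rw [mul_zero] at hk
            exact hG0 hk
          rw [hk, natDegree_mul hf0 hk0] at hd2
          have hkodd : Odd k.natDegree := by
            rw [Nat.odd_iff] at hf ⊢
            omega
          obtain ⟨c, hc⟩ := ih k.natDegree (by omega) k hkodd rfl
          refine absurd ?_ (hev c)
          rw [hk, eval_mul, hc.eq_zero, mul_zero]
    · rw [irreducible_iff] at hirr
      push Not at hirr
      obtain ⟨a, b, hab, ha, hb⟩ := hirr hnu
      have ha0 : a ≠ 0 := by
        rintro rfl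
        rw [zero_mul] at hab
        exact hf0 hab
      have hb0 : b ≠ 0 := by
        rintro rfl
        rw [mul_zero] at hab
        exact hf0 hab
      have hda : 0 < a.natDegree := by
        rw [Nat.pos_iff_ne_zero]
        intro h2
        exact ha (isUnit_iff_degree_eq_zero.2 (by rw [degree_eq_natDegree ha0, h2]; rfl))
      have hdb : 0 < b.natDegree := by
        rw [Nat.pos_iff_ne_zero]
        intro h2
        exact hb (isUnit_iff_degree_eq_zero.2 (by rw [degree_eq_natDegree hb0, h2]; rfl))
      have hsum : f.natDegree = a.natDegree + b.natDegree := by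
        rw [hab, natDegree_mul ha0 hb0]
      rcases Nat.even_or_odd a.natDegree with hev | hodd
      · have hbo : Odd b.natDegree := by
          rw [Nat.odd_iff] at hf ⊢
          rw [Nat.even_iff] at hev
          omega
        obtain ⟨x, hx⟩ := ih b.natDegree (by omega) b hbo rfl
        exact ⟨x, by rw [hab, IsRoot, eval_mul, hx.eq_zero, mul_zero]⟩
      · obtain ⟨x, hx⟩ := ih a.natDegree (by omega) a hodd rfl
        exact ⟨x, by rw [hab, IsRoot, eval_mul, hx.eq_zero, zero_mul]⟩

end Pool.Agent.NRC
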