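import Mathlib

/-!
# The order of a real closed field (package NRC-Ord)
-/

set_option autoImplicit false

namespace Pool.Agent.NRC

universe u

private theorem add_sq {R : Type u} [Field R] [IsRealClosed R] {x y : R} (hx : IsSquare x)
    (hy : IsSquare y) : IsSquare (x + y) := by
  rcases IsRealClosed.isSquare_or_isSquare_neg (x + y) with h | h
  · exact h
  by_cases h0 : x + y = 0
  · rw [h0]
    exact IsSquare.zero
  exfalso
  apply IsSemireal.not_isSumSq_neg_one R
  have h1 : IsSumSq (x + y) := (IsSquare.isSumSq hx).add (IsSquare.isSumSq hy)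
  have h2 : IsSumSq (-(x + y)) := IsSquare.isSumSq h
  have h3 : IsSumSq ((x + y) * -(x + y) * ((x + y)⁻¹ * (x + y)⁻¹)) :=
    (h1.mul h2).mul (IsSumSq.mul_self _)
  have h4 : (x + y) * -(x + y) * ((x + y)⁻¹ * (x + y)⁻¹) = -1 := by
    field_simp
  rwa [h4] at h3

/-- PROOF. `a ≤ b` iff `IsSquare (b - a)`. The squares are closed under addition: if `x = a ^ 2 + b
^ 2` is no square, then `-x = c ^ 2`, so `a ^ 2 + b ^ 2 + c ^ 2 = 0` with some nonzero term (`x ≠
0`), and dividing by it `-1` is a sum of squares, against `IsSemireal`. They are closed under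
products, `IsSquare x ∨ IsSquare (-x)`, and both only for `x = 0`. Use `classical` and
`LinearOrder.mk`-like constructors, or a general construction of Mathlib from a positive cone
(`RingPreordering`, `LinearOrderedField.mkOfPositiveCone`, `Ring.TotalPositiveCone` or similar). -/
theorem exists_order (R : Type u) [Field R] [IsRealClosed R] :
    ∃ _ : LinearOrder R, IsStrictOrderedRing R := by
  classical
  let C : RingCone R :=
    { carrier := {x | IsSquare x}
      zero_mem' := IsSquare.zero
      one_mem' := IsSquare.one
      add_mem' := fun hx hy => add_sq hx hy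
      mul_mem' := fun hx hy => IsSquare.mul hx hy
      eq_zero_of_mem_of_neg_mem' := by
        intro x hx hx'
        by_contra h0
        apply IsSemireal.not_isSumSq_neg_one R
        have h3 : IsSumSq (x * -x * (x⁻¹ * x⁻¹)) :=
          ((IsSquare.isSumSq hx).mul (IsSquare.isSumSq hx')).mul (IsSumSq.mul_self _)
        have h4 : x * -x * (x⁻¹ * x⁻¹) = -1 := by
          field_simp
        rwa [h4] at h3 }
  have hC : HasMemOrNegMem C := ⟨fun x => IsRealClosed.isSquare_or_isSquare_neg x⟩
  let _ : LinearOrder R := LinearOrder.mkOfAddGroupCone C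
  have h : IsOrderedRing R := IsOrderedRing.mkOfCone C
  exact ⟨inferInstance, IsOrderedRing.toIsStrictOrderedRing R⟩

end Pool.Agent.NRC
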