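import Mathlib

/-!
# Formally real fields of degree two below their algebraic closure (package NRC-RF)
-/

set_option autoImplicit false

namespace Pool.Agent.NRC

open Polynomial

universe u

private lemma coords_RF {F : Type u} [Field F] [IsSemireal F]
    (h : Module.finrank F (AlgebraicClosure F) = 2) :
    ∃ i : AlgebraicClosure F, i * i = -1 ∧
      (∀ s t : F, s • (1 : AlgebraicClosure F) + t • i = 0 → s = 0 ∧ t = 0) ∧
      ∀ z : AlgebraicClosure F, ∃ a b : F, a • (1 : AlgebraicClosure F) + b • i = z := by
  obtain ⟨i, hi⟩ := IsAlgClosed.exists_eq_mul_self (-1 : AlgebraicClosure F)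
  have hli : ∀ s t : F, s • (1 : AlgebraicClosure F) + t • i = 0 → s = 0 ∧ t = 0 := by
    intro s t hst
    rw [Algebra.smul_def, Algebra.smul_def, mul_one] at hst
    have ht : t = 0 := by
      by_contra ht
      have ht' : algebraMap F (AlgebraicClosure F) t ≠ 0 := by
        rwa [Ne, FaithfulSMul.algebraMap_eq_zero_iff]
      have h1 : i = algebraMap F (AlgebraicClosure F) (-(s / t)) := by
        rw [map_neg, map_div₀]
        field_simp
        linear_combination hst
      have h2 : algebraMap F (AlgebraicClosure F) (-(s / t) * -(s / t)) =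
          algebraMap F (AlgebraicClosure F) (-1) := by
        rw [map_mul, ← h1, ← hi, map_neg, map_one]
      have h3 : -(s / t) * -(s / t) = (-1 : F) := FaithfulSMul.algebraMap_injective F _ h2
      apply IsSemireal.not_isSumSq_neg_one F
      rw [← h3]
      exact IsSumSq.mul_self _
    rw [ht, map_zero, zero_mul, add_zero, FaithfulSMul.algebraMap_eq_zero_iff] at hst
    exact ⟨hst, ht⟩
  refine ⟨i, hi.symm, hli, fun z => ?_⟩
  have hlin : LinearIndependent F ![(1 : AlgebraicClosure F), i] :=
    LinearIndependent.pair_iff.2 hli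
  have hfin : FiniteDimensional F (AlgebraicClosure F) :=
    FiniteDimensional.of_finrank_pos (by rw [h]; norm_num)
  have hspan : Submodule.span F (Set.range ![(1 : AlgebraicClosure F), i]) = ⊤ :=
    hlin.span_eq_top_of_card_eq_finrank (by rw [h, Fintype.card_fin])
  have hz : z ∈ Submodule.span F (Set.range ![(1 : AlgebraicClosure F), i]) := by
    rw [hspan]; exact Submodule.mem_top
  rw [Matrix.range_cons, Matrix.range_cons, Matrix.range_empty, Set.union_empty,
    Set.singleton_union, Submodule.mem_span_pair] at hz
  exact hz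

private lemma odd_RF {F : Type u} [Field F] (h : Module.finrank F (AlgebraicClosure F) = 2)
    (n : ℕ) : ∀ f : F[X], f.natDegree = n → Odd n → ∃ x, f.IsRoot x := by
  induction n using Nat.strong_induction_on with
  | h n ih =>
    intro f hf hn
    have hfin : FiniteDimensional F (AlgebraicClosure F) :=
      FiniteDimensional.of_finrank_pos (by rw [h]; norm_num)
    have hn0 : n ≠ 0 := by rintro rfl; exact Nat.not_odd_zero hn
    have hf0 : f ≠ 0 := by
      rintro rfl
      rw [natDegree_zero] at hf
      exact hn0 hf.symm
    have hdeg0 : f.degree ≠ 0 := by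
      rw [degree_eq_natDegree hf0, hf]
      exact_mod_cast hn0
    by_cases hirr : Irreducible f
    · obtain ⟨z, hz⟩ := IsAlgClosed.exists_aeval_eq_zero (AlgebraicClosure F) f hdeg0
      have h1 := minpoly.eq_of_irreducible hirr hz
      have h2 : (minpoly F z).natDegree = n := by
        rw [← h1, natDegree_mul_C (inv_ne_zero (leadingCoeff_ne_zero.2 hf0)), hf]
      have h3 : (minpoly F z).natDegree ∣ Module.finrank F (AlgebraicClosure F) :=
        minpoly.degree_dvd (Algebra.IsIntegral.isIntegral z)
      rw [h2, h] at h3
      have h4 : n = 1 := by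
        rcases (Nat.dvd_prime Nat.prime_two).1 h3 with h5 | h5
        · exact h5
        · rw [h5] at hn
          exact absurd hn (by decide)
      apply exists_root_of_degree_eq_one
      rw [degree_eq_natDegree hf0, hf, h4]
      rfl
    · have hnu : ¬ IsUnit f := fun hu => hdeg0 (degree_eq_zero_of_isUnit hu)
      rw [irreducible_iff] at hirr
      push Not at hirr
      obtain ⟨a, b, hab, ha, hb⟩ := hirr hnu
      have ha0 : a ≠ 0 := by rintro rfl; rw [zero_mul] at hab; exact hf0 hab
      have hb0 : b ≠ 0 := by rintro rfl; rw [mul_zero] at hab; exact hf0 hab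
      have hda : 0 < a.natDegree := natDegree_pos_iff_degree_pos.2
        (degree_pos_of_ne_zero_of_nonunit ha0 ha)
      have hdb : 0 < b.natDegree := natDegree_pos_iff_degree_pos.2
        (degree_pos_of_ne_zero_of_nonunit hb0 hb)
      have hsum : a.natDegree + b.natDegree = n := by
        rw [← natDegree_mul ha0 hb0, ← hab, hf]
      rcases Nat.even_or_odd a.natDegree with he | ho
      · have hob : Odd b.natDegree := by
          rw [← hsum] at hn
          exact (Nat.odd_add'.1 hn).2 he
        obtain ⟨x, hx⟩ := ih b.natDegree (by omega) b rfl hob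
        exact ⟨x, by rw [hab, IsRoot.def, eval_mul, hx.eq_zero, mul_zero]⟩
      · obtain ⟨x, hx⟩ := ih a.natDegree (by omega) a rfl ho
        exact ⟨x, by rw [hab, IsRoot.def, eval_mul, hx.eq_zero, zero_mul]⟩

/-- PROOF. `-1` is no square in `F`. Let `i` be a root of `X ^ 2 + 1` in the algebraic closure `Ω`;
`Ω = F(i)`. (1) Let `x ∈ F` be no square; a root `r` of `X ^ 2 - x` in `Ω` is `a + b i` with `a, b
∈ F`; `r ^ 2 = a ^ 2 - b ^ 2 + 2 a b i = x ∈ F`, so `2 a b = 0` (characteristic `0`, the instance
for semireal rings), and `b = 0` would make `x = a ^ 2` a square; so `a = 0` and `-x = b ^ 2`. (2)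
Let `f` have odd degree. Some irreducible factor `g` of `f` has odd degree; a root of `g` in `Ω`
generates an intermediate field of degree `natDegree g` which divides `2` (tower law), so `natDegree
g = 1` and `f` has a root. -/
theorem isRealClosed_of_finrank {F : Type u} [Field F] [IsSemireal F]
    (h : Module.finrank F (AlgebraicClosure F) = 2) : IsRealClosed F := by
  obtain ⟨i, hi, hli, hz⟩ := coords_RF h
  refine ⟨fun x => ?_, fun {f} hf => odd_RF h _ f rfl hf⟩
  obtain ⟨r, hr⟩ := IsAlgClosed.exists_eq_mul_self (algebraMap F (AlgebraicClosure F) x)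
  obtain ⟨a, b, hab⟩ := hz r
  have h1 : (a * a - b * b - x) • (1 : AlgebraicClosure F) + (2 * (a * b)) • i = 0 := by
    rw [Algebra.smul_def, Algebra.smul_def, mul_one] at hab ⊢
    rw [← hab] at hr
    rw [map_sub, map_sub, map_mul, map_mul, map_mul, map_mul, hr, map_ofNat]
    linear_combination (-(algebraMap F (AlgebraicClosure F) b) ^ 2) * hi
  obtain ⟨h2, h3⟩ := hli _ _ h1
  have h4 : a * b = 0 := by
    rcases mul_eq_zero.1 h3 with h5 | h5
    · exact absurd h5 two_ne_zero
    · exact h5
  rcases mul_eq_zero.1 h4 with h5 | h5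
  · right
    refine ⟨b, ?_⟩
    rw [h5] at h2
    linear_combination h2
  · left
    refine ⟨a, ?_⟩
    rw [h5] at h2
    linear_combination -h2

end Pool.Agent.NRC
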