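import Mathlib

/-!
# Maximal formally real algebraic extensions (package NRC-Zorn)
-/

set_option autoImplicit false

namespace Pool.Agent.NRC

universe u

private theorem list_of_isSumSq_Zorn {R : Type*} [Semiring R] {a : R} (h : IsSumSq a) :
    ∃ l : List R, (l.map fun x => x * x).sum = a := by
  induction h with
  | zero => exact ⟨[], rfl⟩
  | sq_add x _ ih =>
    obtain ⟨l, hl⟩ := ih
    exact ⟨x :: l, by rw [List.map_cons, List.sum_cons, hl]⟩

private theorem isSumSq_list_Zorn {R : Type*} [Semiring R] (l : List R) :
    IsSumSq (l.map fun x => x * x).sum := by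
  induction l with
  | nil => exact IsSumSq.zero
  | cons x l ih =>
    rw [List.map_cons, List.sum_cons]
    exact (IsSumSq.mul_self x).add ih

private theorem semireal_iff_Zorn {R : Type*} [Ring R] :
    IsSemireal R ↔ ¬ ∃ l : List R, (l.map fun x => x * x).sum = -1 := by
  rw [isSemireal_iff_not_isSumSq_neg_one]
  refine not_congr ⟨fun h => list_of_isSumSq_Zorn h, ?_⟩
  rintro ⟨l, hl⟩
  rw [← hl]
  exact isSumSq_list_Zorn l

private theorem semireal_of_map_Zorn {R R' : Type*} [Ring R] [Ring R'] (f : R →+* R')
    (h : IsSemireal R') : IsSemireal R := by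
  rw [semireal_iff_Zorn] at h ⊢
  rintro ⟨l, hl⟩
  refine h ⟨l.map f, ?_⟩
  have h1 := congrArg f hl
  rw [map_list_sum, List.map_map, map_neg, map_one] at h1
  rw [List.map_map, ← h1]
  congr 1
  refine List.map_congr_left fun x _ => ?_
  simp

/-- a list of elements of `E` which are in the range of an injective ring homomorphism -/
private theorem semireal_range_Zorn {N E : Type*} [Ring N] [Ring E] (φ : N →+* E)
    (hφ : Function.Injective φ) (hN : IsSemireal N) {l : List E} (hl : ∀ x ∈ l, ∃ y, φ y = x) :
    (l.map fun x => x * x).sum ≠ -1 := by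
  intro h
  have h1 : ∃ l' : List N, l'.map φ = l := by
    clear h
    induction l with
    | nil => exact ⟨[], rfl⟩
    | cons x l ih =>
      obtain ⟨y, hy⟩ := hl x List.mem_cons_self
      obtain ⟨l', hl'⟩ := ih fun z hz => hl z (List.mem_cons_of_mem _ hz)
      exact ⟨y :: l', by rw [List.map_cons, hy, hl']⟩
  obtain ⟨l', rfl⟩ := h1
  rw [semireal_iff_Zorn] at hN
  refine hN ⟨l', hφ ?_⟩
  rw [map_neg, map_one, ← h, map_list_sum, List.map_map, List.map_map]
  congr 1
  refine List.map_congr_left fun x _ => ?_
  simp

/-- PROOF. Zorn's lemma (`zorn_le_nonempty₀` or similar) for the intermediate fields `M` of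
`AlgebraicClosure L / L` with `IsSemireal M`: `⊥` is semireal (isomorphic to `L`), and the union of
a nonempty chain of semireal fields is semireal (an identity `-1 = ∑ x i ^ 2` involves finitely
many elements, which lie in one member; for example by induction: `IsSumSq` in the union comes from
`IsSumSq` in a member; the supremum of a chain is its union: `IntermediateField`,
`Subalgebra.coe_iSup_of_directed`). Let `M` be maximal. Let `N / M` be finite and semireal: it
embeds over `M` into `AlgebraicClosure L` (`IsAlgClosed.lift`, algebraic over `M`), the image is a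
semireal intermediate field containing `M`, so it is `M` and `finrank M N = 1`. -/
theorem exists_maximal (L : Type u) [Field L] [IsSemireal L] :
    ∃ (M : Type u) (_ : Field M) (_ : Algebra L M), IsSemireal M ∧
      ∀ (N : Type u) [Field N] [Algebra M N] [FiniteDimensional M N], IsSemireal N →
        Module.finrank M N = 1 := by
  classical
  have key : ∀ K : IntermediateField L (AlgebraicClosure L), IsSemireal K ↔
      ∀ l : List (AlgebraicClosure L), (∀ x ∈ l, x ∈ K) →
        (l.map fun x => x * x).sum ≠ -1 := by
    intro K
    constructor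
    · intro hK l hl
      exact semireal_range_Zorn (K.val : K →+* AlgebraicClosure L) K.val.injective hK
        fun x hx => ⟨⟨x, hl x hx⟩, rfl⟩
    · intro h
      rw [semireal_iff_Zorn]
      rintro ⟨l, hl⟩
      refine h (l.map K.val) ?_ ?_
      · intro x hx
        obtain ⟨y, _, rfl⟩ := List.mem_map.1 hx
        exact y.2
      · have h1 := congrArg K.val hl
        rw [map_list_sum, List.map_map, map_neg, map_one] at h1
        rw [List.map_map, ← h1]
        congr 1
  have hbot : IsSemireal (⊥ : IntermediateField L (AlgebraicClosure L)) :=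
    semireal_of_map_Zorn
      ((IntermediateField.botEquiv L (AlgebraicClosure L)).toAlgHom.toRingHom) inferInstance
  obtain ⟨M, -, hM⟩ := zorn_le_nonempty₀
    {K : IntermediateField L (AlgebraicClosure L) | IsSemireal K} (by
      intro c hc hchain y hy
      refine ⟨sSup c, ?_, fun z hz => le_sSup hz⟩
      change IsSemireal (sSup c : IntermediateField L (AlgebraicClosure L))
      have hne : Nonempty c := ⟨⟨y, hy⟩⟩
      have hdir : Directed (· ≤ ·) (fun K : c => (K : IntermediateField L (AlgebraicClosure L))) :=
        hchain.directedOn.directed_val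
      have hmem : ∀ x, x ∈ (sSup c : IntermediateField L (AlgebraicClosure L)) →
          ∃ K ∈ c, x ∈ K := by
        intro x hx
        rw [sSup_eq_iSup', ← SetLike.mem_coe, IntermediateField.coe_iSup_of_directed hdir,
          Set.mem_iUnion] at hx
        obtain ⟨K, hK⟩ := hx
        exact ⟨K, K.2, hK⟩
      rw [key]
      intro l hl
      have hall : ∃ K ∈ c, ∀ x ∈ l, x ∈ K := by
        induction l with
        | nil => exact ⟨y, hy, fun x hx => absurd hx List.not_mem_nil⟩
        | cons x l ih =>
          obtain ⟨K, hK, h1⟩ := ih fun z hz => hl z (List.mem_cons_of_mem _ hz)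
          obtain ⟨K', hK', h2⟩ := hmem x (hl x List.mem_cons_self)
          rcases hchain.total hK hK' with h3 | h3
          · refine ⟨K', hK', fun z hz => ?_⟩
            rcases List.mem_cons.1 hz with rfl | hz
            · exact h2
            · exact h3 (h1 z hz)
          · refine ⟨K, hK, fun z hz => ?_⟩
            rcases List.mem_cons.1 hz with rfl | hz
            · exact h3 h2
            · exact h1 z hz
      obtain ⟨K, hK, h1⟩ := hall
      exact (key K).1 (hc hK) l h1) ⊥ hbot
  refine ⟨M, inferInstance, inferInstance, hM.prop, ?_⟩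
  intro N _ _ _ hN
  have φ : N →ₐ[M] AlgebraicClosure L := IsAlgClosed.lift
  have hR : IsSemireal (φ.fieldRange.restrictScalars L :
      IntermediateField L (AlgebraicClosure L)) := by
    rw [key]
    intro l hl
    exact semireal_range_Zorn (φ : N →+* AlgebraicClosure L) φ.injective hN
      fun x hx => by
        obtain ⟨y, hy⟩ := hl x hx
        exact ⟨y, hy⟩
  have hle : M ≤ (φ.fieldRange.restrictScalars L) := by
    intro x hx
    exact ⟨algebraMap M N ⟨x, hx⟩, φ.commutes ⟨x, hx⟩⟩
  have hge := hM.le_of_ge (y := φ.fieldRange.restrictScalars L) hR hle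
  rw [finrank_eq_one_iff_of_nonzero' (1 : N) one_ne_zero]
  intro y
  have hy : φ y ∈ M := hge ⟨y, rfl⟩
  have hinj : Function.Injective φ := φ.injective
  refine ⟨⟨φ y, hy⟩, hinj ?_⟩
  rw [Algebra.smul_def, mul_one, φ.commutes]
  rfl

end Pool.Agent.NRC
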