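import Pool.Agent.NRC.Sq
import Pool.Agent.NRC.Odd
import Pool.Agent.NRC.Zorn
import Pool.Agent.NRC.Ord
import Pool.Agent.NRC.RF
import Pool.Agent.NRC.Hom
import Pool.Agent.NRC.DedF
import Pool.Agent.QCT.Ivt
import Pool.Agent.NNO.Main

/-!
# Formally real function fields are not NIP
-/

set_option autoImplicit false

namespace Pool.Agent.NRC

open FirstOrder FirstOrder.Language FirstOrder.Ring Pool.Agent.NIPFields Pool.Agent.QCT
open scoped IntermediateField

universe u

/-- A formally real field embeds into a real closed field. -/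
theorem exists_realClosed (L : Type u) [Field L] [IsSemireal L] :
    ∃ (R : Type u) (_ : Field R) (_ : LinearOrder R) (_ : IsStrictOrderedRing R), RCF R ∧
      Nonempty (L →+* R) := by
  obtain ⟨M, _, _, hM, hmax⟩ := exists_maximal L
  have hrc : IsRealClosed M :=
    { isSquare_or_isSquare_neg := isSquare_or hmax
      exists_isRoot_of_odd_natDegree := fun hf => exists_isRoot_of_odd hmax _ hf }
  obtain ⟨_, _⟩ := exists_order M
  exact ⟨M, _, _, inferInstance, inferInstance, ⟨algebraMap L M⟩⟩

/-- A subfield of a formally real field is formally real. -/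
theorem isSemireal_of_hom {F L : Type u} [Field F] [Field L] (f : F →+* L) (h : IsSemireal L) :
    IsSemireal F := by
  rw [isSemireal_iff_not_isSumSq_neg_one] at h ⊢
  intro hF
  apply h
  have key : ∀ x : F, IsSumSq x → IsSumSq (f x) := by
    intro x hx
    induction hx with
    | zero => rw [map_zero]; exact IsSumSq.zero
    | sq_add a hs ih =>
      rw [map_add, map_mul]
      exact IsSumSq.sq_add _ ih
  have := key _ hF
  rwa [map_neg, map_one] at this

/-- The constant field is algebraically closed or real closed, and in the second case `-1` is a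
sum of squares. -/
theorem isSumSq_neg_one {F L : Type u} [Field F] [CharZero F] [Field L] [CompatibleRing L]
    [Algebra F L] (hL : NIP L) (u : L) (hu : Transcendental F u) [FiniteDimensional F⟮u⟯ L]
    (hF : Module.finrank F (AlgebraicClosure F) = 2) : IsSumSq (-1 : L) := by
  classical
  by_contra hcon
  have hLr : IsSemireal L := isSemireal_iff_not_isSumSq_neg_one.2 hcon
  have hFr : IsSemireal F := isSemireal_of_hom (algebraMap F L) hLr
  have hrc : IsRealClosed F := isRealClosed_of_finrank hF
  obtain ⟨_, _⟩ := exists_order F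
  obtain ⟨R, _, _, _, hR, ⟨f⟩⟩ := exists_realClosed L
  have hmono : StrictMono (f.comp (algebraMap F L)) := by
    have hm : Monotone (f.comp (algebraMap F L)) := by
      intro a b hab
      rw [← sub_nonneg] at hab ⊢
      obtain ⟨c, hc⟩ := IsSquare.of_nonneg hab
      rw [← map_sub, hc, map_mul]
      exact mul_self_nonneg _
    exact hm.strictMono_of_injective (f.comp (algebraMap F L)).injective
  obtain ⟨B, _, _, _, htow, hded, hfrac, hft, t, ht⟩ := exists_dedekind u hu
  have hL2 : ((2 : ℕ) : L) ≠ 0 := by
    have : CharZero L := charZero_of_injective_algebraMap (algebraMap F L).injective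
    exact_mod_cast (two_ne_zero : (2 : L) ≠ 0)
  have hfin := NNO.finite_ne_pow hL Nat.prime_two hL2 (A := B)
  have hcu : ∀ m : Ideal B, m.IsPrime → ∀ c c' : F, t - algebraMap F B c ∈ m →
      t - algebraMap F B c' ∈ m → c = c' := by
    intro m hm c c' h1 h2
    by_contra hne
    have h3 : algebraMap F B (c' - c) ∈ m := by
      rw [map_sub]
      have := m.sub_mem h1 h2
      rwa [sub_sub_sub_cancel_left] at this
    apply hm.ne_top
    exact m.eq_top_of_isUnit_mem h3 ((IsUnit.mk0 _ (sub_ne_zero.2 (Ne.symm hne))).map _)
  let g : Ideal B → F := fun m => if h : ∃ c : F, t - algebraMap F B c ∈ m then h.choose else 0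
  obtain ⟨χ, hχ⟩ := exists_hom (f.comp (algebraMap F L)) hmono (f.comp (algebraMap B L))
    (fun c => by
      rw [RingHom.comp_apply, RingHom.comp_apply, ← IsScalarTower.algebraMap_apply]) t
    (fun c h => by
      rw [RingHom.comp_apply, RingHom.comp_apply] at h
      have h1 := f.injective h
      rw [ht] at h1
      exact hu (h1 ▸ isAlgebraic_algebraMap c)) (hfin.toFinset.image g)
  have hprime : (RingHom.ker χ).IsPrime := RingHom.ker_isPrime χ
  have hmemt : t - algebraMap F B (χ t) ∈ RingHom.ker χ := by
    rw [RingHom.mem_ker, map_sub, AlgHom.commutes, Algebra.algebraMap_self_apply, sub_self]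
  apply hχ
  rw [Finset.mem_image]
  refine ⟨RingHom.ker χ, ?_, ?_⟩
  · rw [Set.Finite.mem_toFinset]
    refine ⟨hprime, ?_, -1, fun c hc => ?_⟩
    · intro hbot
      rw [hbot, Ideal.mem_bot, sub_eq_zero] at hmemt
      apply hu
      rw [← ht, hmemt, ← IsScalarTower.algebraMap_apply]
      exact isAlgebraic_algebraMap _
    · rw [RingHom.mem_ker, sub_neg_eq_add, map_add, map_pow, map_one] at hc
      nlinarith [sq_nonneg (χ c)]
  · have hex : ∃ c : F, t - algebraMap F B c ∈ RingHom.ker χ := ⟨_, hmemt⟩
    simp only [g]
    rw [dif_pos hex]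
    exact hcu _ hprime _ _ hex.choose_spec hmemt

end Pool.Agent.NRC
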