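import Pool.Agent.NRC.Tr
import Pool.Agent.QCT.Chk

/-!
# Transfer of solutions of a polynomial equation (package NRC-Pol)
-/

set_option autoImplicit false

namespace Pool.Agent.NRC

open Pool.Agent.QCT

universe u

private def vars {m : ℕ} (d : Fin m →₀ ℕ) : List ℕ :=
  (List.ofFn fun i : Fin m => List.replicate (d i) i.1).flatten

private theorem prod_vars {K : Type u} [Field K] {m : ℕ} (d : Fin m →₀ ℕ) (x : ℕ → K) :
    ((vars d).map x).prod = ∏ i : Fin m, x i.1 ^ d i := by
  unfold vars
  rw [List.map_flatten, List.prod_flatten, List.map_map, List.map_ofFn, List.prod_ofFn]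
  refine Finset.prod_congr rfl fun i _ => ?_
  simp

private noncomputable def plP {F : Type u} [Field F] {m : ℕ} (e : (Fin m →₀ ℕ) → ℕ)
    (P : MvPolynomial (Fin m) F) : Pl :=
  P.support.toList.map fun d => (true, (m + e d) :: vars d)

private theorem ev_plP {F K : Type u} [Field F] [Field K] (φ : F →+* K) {m : ℕ}
    (e : (Fin m →₀ ℕ) → ℕ) (P : MvPolynomial (Fin m) F) (x : ℕ → K)
    (hx : ∀ d, x (m + e d) = φ (P.coeff d)) :
    Pl.ev x (plP e P) = MvPolynomial.eval₂ φ (fun i : Fin m => x i.1) P := by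
  rw [MvPolynomial.eval₂_eq']
  unfold Pl.ev plP
  rw [List.map_map, Finset.sum_map_toList]
  refine Finset.sum_congr rfl fun d _ => ?_
  simp only [Function.comp_apply, if_true, one_mul, List.map_cons, List.prod_cons]
  rw [hx, prod_vars]

private theorem satQ_iff_plP {F K : Type u} [Field F] [Field K] [LinearOrder K]
    [IsStrictOrderedRing K] (φ : F →+* K) {m : ℕ}
    (e : (Fin m →₀ ℕ) → ℕ) (P : MvPolynomial (Fin m) F) (x : ℕ → K)
    (hx : ∀ d, x (m + e d) = φ (P.coeff d)) :
    SatQ [[(plP e P, 0)]] (List.replicate m true) 0 x ↔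
      ∃ y : Fin m → K, MvPolynomial.eval₂ φ y P = 0 := by
  have h1 := Chk.satQ_true (R := K) [[(plP e P, 0)]] [] m 0 x
  rw [List.append_nil] at h1
  rw [h1]
  have h2 : ∀ y : ℕ → K, SatQ [[(plP e P, 0)]] [] (0 + m) (Chk.bl x 0 m y) ↔
      MvPolynomial.eval₂ φ (fun i : Fin m => y i.1) P = 0 := by
    intro y
    have h3 : ∀ d, Chk.bl x 0 m y (m + e d) = φ (P.coeff d) := by
      intro d
      unfold Chk.bl
      rw [if_neg (by omega), hx]
    have h4 : (fun i : Fin m => Chk.bl x 0 m y i.1) = fun i : Fin m => y i.1 := by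
      funext i
      unfold Chk.bl
      rw [if_pos ⟨Nat.zero_le _, by have := i.2; omega⟩, Nat.sub_zero]
    have h5 := ev_plP φ e P (Chk.bl x 0 m y) h3
    rw [h4] at h5
    simp only [SatQ, Mat.sat, Asg.sat, List.mem_singleton, forall_eq, exists_eq_left]
    rw [h5, sign_eq_zero_iff]
  constructor
  · rintro ⟨y, hy⟩
    exact ⟨fun i => y i.1, (h2 y).1 hy⟩
  · rintro ⟨y, hy⟩
    refine ⟨fun v => if h : v < m then y ⟨v, h⟩ else 0, (h2 _).2 ?_⟩
    have h3 : (fun i : Fin m => if h : i.1 < m then y ⟨i.1, h⟩ else 0) = y := by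
      funext i
      rw [dif_pos i.2]
    rw [h3]
    exact hy

/-- PROOF. The variables `0, …, m - 1` stand for `y`, the variables `m + j` for the coefficients of
`P` in some enumeration of its support (`x (m + j) = coeff (s j) P`, `0` elsewhere). There is a list
polynomial `p : Pl` whose value at `(y, x)` is `P (y)`, over `F` and over `R`: the sum over the
support of the monomials `(true, (m + j) :: the list of the variables of s j with multiplicity)`.
Apply `satQ_iff` with `M = [[(p, 0)]]`, `qs = List.replicate m true`, `i = 0` and `satQ_true`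
(`QCT/Chk.lean`: `SatQ M (List.replicate n true ++ qs) i x ↔ ∃ y, SatQ M qs (i + n) (bl x i n
y)`); `SignType.sign z = 0 ↔ z = 0`. (Or induct on `m` directly with `qe_iff`.) -/
theorem exists_eval_eq_zero {F R : Type u} [Field F] [LinearOrder F] [IsStrictOrderedRing F]
    [RCF F] [Field R] [LinearOrder R] [IsStrictOrderedRing R] [RCF R] (φ : F →+* R)
    (hφ : StrictMono φ) {m : ℕ} (P : MvPolynomial (Fin m) F)
    (h : ∃ y : Fin m → R, MvPolynomial.eval₂ φ y P = 0) :
    ∃ y : Fin m → F, MvPolynomial.eval y P = 0 := by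
  obtain ⟨e, he⟩ := exists_injective_nat (Fin m →₀ ℕ)
  set x : ℕ → F := fun v => Function.extend e (fun d => P.coeff d) (fun _ => 0) (v - m) with hxdef
  have hx : ∀ d, x (m + e d) = P.coeff d := by
    intro d
    simp only [hxdef]
    rw [Nat.add_sub_cancel_left, he.extend_apply]
  have h1 := (satQ_iff_plP φ e P (fun j => φ (x j)) fun d => by rw [hx]).2 h
  have h2 := (satQ_iff φ hφ _ _ 0 x).1 h1
  obtain ⟨y, hy⟩ := (satQ_iff_plP (RingHom.id F) e P x fun d => by rw [hx]; rfl).1 h2
  refine ⟨y, ?_⟩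
  rw [MvPolynomial.eval₂_id] at hy
  exact hy

end Pool.Agent.NRC
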