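import Mathlib

/-!
# Maximal formally real fields: squares (package NRC-Sq)
-/

set_option autoImplicit false

namespace Pool.Agent.NRC

universe u

open Polynomial in
private theorem irr_Sq {M : Type u} [Field M] {x : M} (hx : ¬ IsSquare x) :
    Irreducible (X ^ 2 - C x : M[X]) := by
  rw [X_pow_sub_C_irreducible_iff_of_prime Nat.prime_two]
  intro b hb
  exact hx ⟨b, by rw [← hb]; ring⟩

open Polynomial in
private theorem repr_Sq {M : Type u} [Field M] (x : M) (z : AdjoinRoot (X ^ 2 - C x : M[X])) :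
    ∃ a b : M, z = AdjoinRoot.of _ a + AdjoinRoot.of _ b * AdjoinRoot.root _ := by
  obtain ⟨g, rfl⟩ := AdjoinRoot.mk_surjective z
  have hm : (X ^ 2 - C x : M[X]).Monic := monic_X_pow_sub_C x two_ne_zero
  have hn : (X ^ 2 - C x : M[X]).natDegree = 2 := natDegree_X_pow_sub_C
  have hdeg : (g %ₘ (X ^ 2 - C x)).natDegree ≤ 1 := by
    have h1 := natDegree_modByMonic_lt g hm (fun h => by rw [h] at hn; simp at hn)
    rw [hn] at h1
    omega
  obtain ⟨a, b, h⟩ := exists_eq_X_add_C_of_natDegree_le_one hdeg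
  refine ⟨b, a, ?_⟩
  have h2 : AdjoinRoot.mk (X ^ 2 - C x) g = AdjoinRoot.mk _ (g %ₘ (X ^ 2 - C x)) := by
    conv_lhs => rw [← modByMonic_add_div g (X ^ 2 - C x)]
    rw [map_add, map_mul, AdjoinRoot.mk_self, zero_mul, add_zero]
  rw [h2, h, map_add, map_mul, AdjoinRoot.mk_C, AdjoinRoot.mk_C, AdjoinRoot.mk_X, add_comm]

open Polynomial in
private theorem indep_Sq {M : Type u} [Field M] {x : M} {c d : M}
    (h : AdjoinRoot.of (X ^ 2 - C x : M[X]) c +
      AdjoinRoot.of (X ^ 2 - C x : M[X]) d * AdjoinRoot.root _ = 0) : c = 0 := by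
  have h1 : AdjoinRoot.mk (X ^ 2 - C x) (C c + C d * X) = 0 := by
    rw [map_add, map_mul, AdjoinRoot.mk_C, AdjoinRoot.mk_C, AdjoinRoot.mk_X]
    exact h
  rw [AdjoinRoot.mk_eq_zero] at h1
  have hn : (X ^ 2 - C x : M[X]).natDegree = 2 := natDegree_X_pow_sub_C
  have h2 : C c + C d * X = (0 : M[X]) := by
    by_contra h3
    have h4 := natDegree_le_of_dvd h1 h3
    have h5 : (C c + C d * X : M[X]).natDegree ≤ 1 := by
      refine (natDegree_add_le _ _).trans (max_le (by simp) ?_)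
      exact (natDegree_C_mul_le d X).trans natDegree_X_le
    omega
  have h6 := congrArg (fun p : M[X] => p.coeff 0) h2
  simpa using h6

open Polynomial in
private theorem neg_Sq {M : Type u} [Field M] [IsSemireal M]
    (h : ∀ (N : Type u) [Field N] [Algebra M N] [FiniteDimensional M N], IsSemireal N →
      Module.finrank M N = 1) {x : M} (hx : ¬ IsSquare x) : IsSumSq (-x) := by
  have : Fact (Irreducible (X ^ 2 - C x : M[X])) := ⟨irr_Sq hx⟩
  have hm : (X ^ 2 - C x : M[X]).Monic := monic_X_pow_sub_C x two_ne_zero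
  have hn : (X ^ 2 - C x : M[X]).natDegree = 2 := natDegree_X_pow_sub_C
  have hfin : FiniteDimensional M (AdjoinRoot (X ^ 2 - C x : M[X])) :=
    Polynomial.Monic.finite_adjoinRoot hm
  have hr : Module.finrank M (AdjoinRoot (X ^ 2 - C x : M[X])) = 2 := by
    rw [(AdjoinRoot.powerBasis hm.ne_zero).finrank, AdjoinRoot.powerBasis_dim, hn]
  have hns : ¬ IsSemireal (AdjoinRoot (X ^ 2 - C x : M[X])) := by
    intro hs
    have := h (AdjoinRoot (X ^ 2 - C x : M[X])) hs
    omega
  rw [isSemireal_iff_not_isSumSq_neg_one, not_not] at hns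
  have hroot : (AdjoinRoot.root (X ^ 2 - C x : M[X])) * (AdjoinRoot.root (X ^ 2 - C x : M[X])) =
      AdjoinRoot.of (X ^ 2 - C x : M[X]) x := by
    have h1 : AdjoinRoot.mk (X ^ 2 - C x : M[X]) (X ^ 2 - C x) = 0 := AdjoinRoot.mk_self
    rw [map_sub, map_pow, AdjoinRoot.mk_X, AdjoinRoot.mk_C, sub_eq_zero] at h1
    rw [← h1]
    ring
  have key : ∀ s : AdjoinRoot (X ^ 2 - C x : M[X]), IsSumSq s → ∃ u v w : M, IsSumSq u ∧
      IsSumSq v ∧ s = AdjoinRoot.of (X ^ 2 - C x : M[X]) (u + x * v) +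
        AdjoinRoot.of (X ^ 2 - C x : M[X]) w * AdjoinRoot.root (X ^ 2 - C x : M[X]) := by
    intro s hs
    induction hs with
    | zero => exact ⟨0, 0, 0, IsSumSq.zero, IsSumSq.zero, by simp⟩
    | sq_add a hs ih =>
      obtain ⟨u, v, w, hu, hv, he⟩ := ih
      obtain ⟨p, q, hpq⟩ := repr_Sq x a
      refine ⟨p * p + u, q * q + v, 2 * p * q + w, IsSumSq.sq_add p hu, IsSumSq.sq_add q hv, ?_⟩
      rw [he, hpq]
      simp only [map_add, map_mul, map_ofNat]
      linear_combination (AdjoinRoot.of (X ^ 2 - C x : M[X]) q) ^ 2 * hroot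
  obtain ⟨u, v, w, hu, hv, he⟩ := key _ hns
  have h3 : 1 + (u + x * v) = 0 := by
    refine indep_Sq (x := x) (c := 1 + (u + x * v)) (d := w) ?_
    rw [map_add, map_one, add_assoc, ← he]
    ring
  have hv0 : v ≠ 0 := by
    rintro rfl
    rw [mul_zero, add_zero] at h3
    exact IsSemireal.one_add_ne_zero hu h3
  have h4 : -x = (1 * 1 + u) * v * (v⁻¹ * v⁻¹) := by
    field_simp
    linear_combination (-1 : M) * h3
  rw [h4]
  exact ((IsSumSq.sq_add 1 hu).mul hv).mul (IsSumSq.mul_self _)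

/-- PROOF. Let `x` be no square in `M`. `X ^ 2 - C x` is irreducible; `N = AdjoinRoot (X ^ 2 - C x)`
has degree `2`, so it is not semireal: `-1` is a sum of squares in `N`, of elements `a i + b i *
r`, `r ^ 2 = x`. Comparing coefficients (basis `1, r`): `-1 = ∑ a i ^ 2 + x * ∑ b i ^ 2`. As `M` is
semireal, `s = ∑ b i ^ 2 ≠ 0`, so `-x = (1 + ∑ a i ^ 2) / s = (1 + ∑ a i ^ 2) * s * (1 / s) ^ 2`
is a sum of squares. So: (1) if `x` is no square, then `-x` is a sum of squares. (2) A sum of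
squares `s` is a square: otherwise `s ≠ 0` and `-s` is a sum of squares as well by (1), and `-1 = s
* (-s) * (1 / s) ^ 2` would be a sum of squares (`IsSumSq.mul`). So if `x` is no square, `-x` is
a square. (`IsSemireal.one_add_ne_zero`, `isSemireal_iff_not_isSumSq_neg_one`.) -/
theorem isSquare_or {M : Type u} [Field M] [IsSemireal M]
    (h : ∀ (N : Type u) [Field N] [Algebra M N] [FiniteDimensional M N], IsSemireal N →
      Module.finrank M N = 1) (x : M) : IsSquare x ∨ IsSquare (-x) := by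
  by_cases hx : IsSquare x
  · exact Or.inl hx
  right
  by_contra hx2
  have h1 : IsSumSq (-x) := neg_Sq h hx
  have h2 : IsSumSq (- -x) := neg_Sq h hx2
  rw [neg_neg] at h2
  have hx0 : x ≠ 0 := by
    rintro rfl
    exact hx ⟨0, by simp⟩
  have h3 : IsSumSq (-1 : M) := by
    have h4 : (-1 : M) = x * (-x) * (x⁻¹ * x⁻¹) := by
      field_simp
    rw [h4]
    exact (h2.mul h1).mul (IsSumSq.mul_self _)
  have h5 := IsSemireal.one_add_ne_zero h3
  exact h5 (by ring)

end Pool.Agent.NRC
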