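import Pool.Agent.QCT.StubA

/-!
# The transfer principle for real closed fields (package NRC-Tr)
-/

set_option autoImplicit false

namespace Pool.Agent.NRC

open Pool.Agent.QCT

universe u

private theorem ev_map {F R : Type u} [Field F] [Field R] (φ : F →+* R) (x : ℕ → F) (p : Pl) :
    Pl.ev (fun j => φ (x j)) p = φ (Pl.ev x p) := by
  simp only [Pl.ev]
  rw [map_list_sum, List.map_map]
  congr 1
  refine List.map_congr_left fun c _ => ?_
  simp only [Function.comp_apply]
  rw [map_mul, map_list_prod, List.map_map]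
  congr 1
  split_ifs <;> simp

private theorem sign_map {F R : Type u} [Field F] [LinearOrder F] [IsStrictOrderedRing F]
    [Field R] [LinearOrder R] [IsStrictOrderedRing R] (φ : F →+* R) (hφ : StrictMono φ) (z : F) :
    SignType.sign (φ z) = SignType.sign z := by
  rcases lt_trichotomy z 0 with h | h | h
  · rw [sign_neg h, sign_neg (by rw [← map_zero φ]; exact hφ h)]
  · rw [h, map_zero, sign_zero, sign_zero]
  · rw [sign_pos h, sign_pos (by rw [← map_zero φ]; exact hφ h)]

private theorem sat_map {F R : Type u} [Field F] [LinearOrder F] [IsStrictOrderedRing F]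
    [Field R] [LinearOrder R] [IsStrictOrderedRing R] (φ : F →+* R) (hφ : StrictMono φ)
    (x : ℕ → F) (M : Mat) : M.sat (fun j => φ (x j)) ↔ M.sat x := by
  simp only [Mat.sat, Asg.sat, ev_map, sign_map φ hφ]

/-- PROOF. (1) `Mat.sat (φ ∘ x) M ↔ Mat.sat x M` for every `M`: `Pl.ev (φ ∘ x) p = φ (Pl.ev x p)`
(induction on lists) and `φ` preserves signs (`StrictMono`, `φ 0 = 0`). (2) `QE.fold_iff` with `hS
= fun x _ hG _ h0 hσ => cols_spec x hG h0 hσ` (see `qe_iff` in `QCT/StubA.lean`) for both fields:
`SatQ M qs i x` is `sat x` of a matrix which depends only on `M`, `qs`, `i`. -/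
theorem satQ_iff {F R : Type u} [Field F] [LinearOrder F] [IsStrictOrderedRing F] [RCF F]
    [Field R] [LinearOrder R] [IsStrictOrderedRing R] [RCF R] (φ : F →+* R) (hφ : StrictMono φ)
    (M : Mat) (qs : List Bool) (i : ℕ) (x : ℕ → F) :
    SatQ M qs i (fun j => φ (x j)) ↔ SatQ M qs i x := by
  rw [← QE.fold_iff (fun x _ hG _ h0 hσ => cols_spec x hG h0 hσ) M qs i (fun j => φ (x j)),
    ← QE.fold_iff (fun x _ hG _ h0 hσ => cols_spec x hG h0 hσ) M qs i x]
  exact sat_map φ hφ x _

end Pool.Agent.NRC
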